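import Mathlib

/-!
# Alternating shortest odd cycles in generalized Mycielski graphs of odd cycles

For all `r, k ≥ 1` the graph `M_r(C_{2k+1})` has an orientation in which every shortest odd cycle
is alternating.
-/

namespace Pool.Agent.Results.MP_118fda_co.Alternating

open SimpleGraph

/-- The generalized Mycielski graph `M_r(G)`: the vertex `(u, i)`, `1 ≤ i ≤ r`, is
`some (u, i - 1)` and `z` is `none`. -/
def genMycielski {V : Type} (G : SimpleGraph V) (r : ℕ) : SimpleGraph (Option (V × Fin r)) where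
  Adj p q :=
    match p, q with
    | some (u, i), some (v, j) =>
        G.Adj u v ∧ ((i.val = 0 ∧ j.val = 0) ∨ i.val + 1 = j.val ∨ j.val + 1 = i.val)
    | some (_, i), none => i.val + 1 = r
    | none, some (_, j) => j.val + 1 = r
    | none, none => False
  symm := by
    constructor
    rintro (_ | ⟨u, i⟩) (_ | ⟨v, j⟩) h
    · exact h
    · exact h
    · exact h
    · exact ⟨h.1.symm, by have := h.2; omega⟩
  loopless := by
    constructor
    rintro (_ | ⟨u, i⟩) h
    · exact h
    · exact G.loopless.irrefl u h.1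

/-- `D` is an orientation of `G`. -/
def IsOrientation {V : Type} (G : SimpleGraph V) (D : V → V → Prop) : Prop :=
  (∀ u v, D u v → G.Adj u v) ∧ (∀ u v, G.Adj u v → D u v ∨ D v u) ∧ ∀ u v, D u v → ¬ D v u

/-- `c` runs around a cycle of length `n` in `G`. -/
def IsCycleMap {V : Type} (G : SimpleGraph V) (n : ℕ) (c : ZMod n → V) : Prop :=
  3 ≤ n ∧ Function.Injective c ∧ ∀ i, G.Adj (c i) (c (i + 1))

/-- `c` runs around a shortest odd cycle of `G`. -/
def IsShortestOddCycle {V : Type} (G : SimpleGraph V) (n : ℕ) (c : ZMod n → V) : Prop :=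
  Odd n ∧ IsCycleMap G n c ∧
    ∀ (m : ℕ) (c' : ZMod m → V), Odd m → IsCycleMap G m c' → n ≤ m

/-- The vertex `c i` is a source or a sink in the cycle `c`. -/
def SourceOrSink {V : Type} (D : V → V → Prop) {n : ℕ} (c : ZMod n → V) (i : ZMod n) : Prop :=
  (D (c i) (c (i - 1)) ∧ D (c i) (c (i + 1))) ∨ (D (c (i - 1)) (c i) ∧ D (c (i + 1)) (c i))

/-- Every vertex of the cycle `c`, with at most one exception, is a source or a sink in it. -/
def IsAlternating {V : Type} (D : V → V → Prop) {n : ℕ} (c : ZMod n → V) : Prop :=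
  ∀ i j, ¬ SourceOrSink D c i → ¬ SourceOrSink D c j → i = j

section General

variable {V : Type} {G : SimpleGraph V}

/-- The orientation given by a two-colouring and an injective rank. -/
def orient (G : SimpleGraph V) (col : V → Bool) (rank : V → ℕ) (u v : V) : Prop :=
  G.Adj u v ∧ ((col u = false ∧ col v = true) ∨ (col u = col v ∧ rank u < rank v))

theorem orient_isOrientation (col : V → Bool) (rank : V → ℕ) (hr : Function.Injective rank) :
    IsOrientation G (orient G col rank) := by
  refine ⟨fun u v h => h.1, ?_, ?_⟩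
  · intro u v h
    have hne : rank u ≠ rank v := fun h' => h.ne (hr h')
    cases hu : col u <;> cases hv : col v
    · rcases lt_or_gt_of_ne hne with h' | h'
      · exact Or.inl ⟨h, Or.inr ⟨by rw [hu, hv], h'⟩⟩
      · exact Or.inr ⟨h.symm, Or.inr ⟨by rw [hu, hv], h'⟩⟩
    · exact Or.inl ⟨h, Or.inl ⟨hu, hv⟩⟩
    · exact Or.inr ⟨h.symm, Or.inl ⟨hv, hu⟩⟩
    · rcases lt_or_gt_of_ne hne with h' | h'
      · exact Or.inl ⟨h, Or.inr ⟨by rw [hu, hv], h'⟩⟩
      · exact Or.inr ⟨h.symm, Or.inr ⟨by rw [hu, hv], h'⟩⟩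
  · rintro u v ⟨-, h1⟩ ⟨-, h2⟩
    rcases h1 with ⟨h1, h1'⟩ | ⟨h1, h1'⟩ <;> rcases h2 with ⟨h2, h2'⟩ | ⟨h2, h2'⟩
    · rw [h1] at h2'; exact absurd h2' (by simp)
    · rw [h1, h1'] at h2; exact absurd h2 (by simp)
    · rw [h2, h2'] at h1; exact absurd h1 (by simp)
    · omega

/-- The set of monochromatic edges of a cycle. -/
def mono {n : ℕ} [NeZero n] (col : V → Bool) (c : ZMod n → V) : Finset (ZMod n) :=
  Finset.univ.filter (fun i => col (c i) = col (c (i + 1)))

theorem mem_mono {n : ℕ} [NeZero n] {col : V → Bool} {c : ZMod n → V} {i : ZMod n} :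
    i ∈ mono col c ↔ col (c i) = col (c (i + 1)) := by
  simp [mono]

theorem odd_mono {n : ℕ} [NeZero n] (hn : Odd n) (col : V → Bool) (c : ZMod n → V) :
    Odd (mono col c).card := by
  rw [← ZMod.natCast_eq_one_iff_odd]
  let g : ZMod n → ZMod 2 := fun i => if col (c i) then 1 else 0
  have h1 : ((mono col c).card : ZMod 2) =
      ∑ i : ZMod n, (if col (c i) = col (c (i + 1)) then 1 else 0 : ZMod 2) := by
    rw [Finset.sum_boole]
    rfl
  have h2 : ∀ i : ZMod n, (if col (c i) = col (c (i + 1)) then 1 else 0 : ZMod 2) =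
      1 + g i + g (i + 1) := by
    intro i
    show _ = 1 + (if col (c i) then 1 else 0) + (if col (c (i + 1)) then 1 else 0)
    cases col (c i) <;> cases col (c (i + 1)) <;> decide
  rw [h1, Finset.sum_congr rfl (fun i _ => h2 i), Finset.sum_add_distrib, Finset.sum_add_distrib]
  have h3 : ∑ i : ZMod n, g (i + 1) = ∑ i : ZMod n, g i :=
    Equiv.sum_comp (Equiv.addRight (1 : ZMod n)) g
  rw [h3, add_assoc]
  have h4 : ∀ x : ZMod 2, x + x = 0 := by decide
  rw [h4, add_zero]
  simp only [Finset.sum_const, Finset.card_univ, ZMod.card, nsmul_eq_mul, mul_one]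
  rw [ZMod.natCast_eq_one_iff_odd]
  exact hn

theorem alternating_of_mono (col : V → Bool) (rank : V → ℕ) (hr : Function.Injective rank)
    {n : ℕ} [NeZero n] (hodd : Odd n) (c : ZMod n → V) (hc : IsCycleMap G n c)
    (hM : (mono col c).card ≤ 2) : IsAlternating (orient G col rank) c := by
  obtain ⟨hn, hinj, hadj⟩ := hc
  have h1 : (mono col c).card = 1 := by
    obtain ⟨m, hm⟩ := odd_mono hodd col c
    omega
  obtain ⟨e, he⟩ := Finset.card_eq_one.mp h1
  have huniq : ∀ i, col (c i) = col (c (i + 1)) → i = e := by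
    intro i hi
    have : i ∈ mono col c := mem_mono.mpr hi
    rw [he, Finset.mem_singleton] at this
    exact this
  have hemono : col (c e) = col (c (e + 1)) := by
    have : e ∈ mono col c := by rw [he]; exact Finset.mem_singleton_self e
    exact mem_mono.mp this
  have hone : (1 : ZMod n) ≠ 0 := by
    intro h
    have h2 := congrArg ZMod.val h
    have hf : Fact (1 < n) := ⟨by omega⟩
    rw [ZMod.val_one, ZMod.val_zero] at h2
    exact absurd h2 (by norm_num)
  -- an exceptional vertex lies on the monochromatic edge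
  have hexc : ∀ i, ¬ SourceOrSink (orient G col rank) c i → i - 1 = e ∨ i = e := by
    intro i hi
    by_contra hcon
    rw [not_or] at hcon
    apply hi
    have hadj1 := hadj (i - 1)
    rw [sub_add_cancel] at hadj1
    have hadj2 := hadj i
    have n1 : col (c (i - 1)) ≠ col (c i) := by
      intro h
      apply hcon.1
      apply huniq
      rw [sub_add_cancel]
      exact h
    have n2 : col (c i) ≠ col (c (i + 1)) := fun h => hcon.2 (huniq i h)
    cases hci : col (c i)
    · left
      have e1 : col (c (i - 1)) = true := by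
        rw [hci] at n1
        cases h : col (c (i - 1))
        · exact absurd h n1
        · rfl
      have e2 : col (c (i + 1)) = true := by
        rw [hci] at n2
        cases h : col (c (i + 1))
        · exact absurd h.symm n2
        · rfl
      exact ⟨⟨hadj1.symm, Or.inl ⟨hci, e1⟩⟩, ⟨hadj2, Or.inl ⟨hci, e2⟩⟩⟩
    · right
      have e1 : col (c (i - 1)) = false := by
        rw [hci] at n1
        cases h : col (c (i - 1))
        · rfl
        · exact absurd h n1
      have e2 : col (c (i + 1)) = false := by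
        rw [hci] at n2
        cases h : col (c (i + 1))
        · rfl
        · exact absurd h.symm n2
      exact ⟨⟨hadj1, Or.inl ⟨e1, hci⟩⟩, ⟨hadj2.symm, Or.inl ⟨e2, hci⟩⟩⟩
  -- one end of the monochromatic edge is not exceptional
  have hend : SourceOrSink (orient G col rank) c e ∨ SourceOrSink (orient G col rank) c (e + 1) := by
    have a0 := hadj (e - 1)
    rw [sub_add_cancel] at a0
    have a1 := hadj e
    have a2 := hadj (e + 1)
    have n0 : col (c (e - 1)) ≠ col (c e) := by
      intro h
      have := huniq (e - 1) (by rw [sub_add_cancel]; exact h)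
      rw [sub_eq_self] at this
      exact hone this
    have n2 : col (c (e + 1)) ≠ col (c (e + 1 + 1)) := by
      intro h
      have := huniq (e + 1) h
      rw [add_eq_left] at this
      exact hone this
    have hrne : rank (c e) ≠ rank (c (e + 1)) := fun h => a1.ne (hr h)
    unfold SourceOrSink
    rw [add_sub_cancel_right]
    cases hce : col (c e)
    · have hce1 : col (c (e + 1)) = false := by rw [← hemono]; exact hce
      have h0 : col (c (e - 1)) = true := by
        rw [hce] at n0
        cases h : col (c (e - 1))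
        · exact absurd h n0
        · rfl
      have h2 : col (c (e + 1 + 1)) = true := by
        rw [hce1] at n2
        cases h : col (c (e + 1 + 1))
        · exact absurd h.symm n2
        · rfl
      rcases lt_or_gt_of_ne hrne with h | h
      · left; left
        exact ⟨⟨a0.symm, Or.inl ⟨hce, h0⟩⟩, ⟨a1, Or.inr ⟨hemono, h⟩⟩⟩
      · right; left
        exact ⟨⟨a1.symm, Or.inr ⟨hemono.symm, h⟩⟩, ⟨a2, Or.inl ⟨hce1, h2⟩⟩⟩
    · have hce1 : col (c (e + 1)) = true := by rw [← hemono]; exact hce
      have h0 : col (c (e - 1)) = false := by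
        rw [hce] at n0
        cases h : col (c (e - 1))
        · rfl
        · exact absurd h n0
      have h2 : col (c (e + 1 + 1)) = false := by
        rw [hce1] at n2
        cases h : col (c (e + 1 + 1))
        · rfl
        · exact absurd h.symm n2
      rcases lt_or_gt_of_ne hrne with h | h
      · right; right
        exact ⟨⟨a1, Or.inr ⟨hemono, h⟩⟩, ⟨a2.symm, Or.inl ⟨h2, hce1⟩⟩⟩
      · left; right
        exact ⟨⟨a0, Or.inl ⟨h0, hce⟩⟩, ⟨a1.symm, Or.inr ⟨hemono.symm, h⟩⟩⟩
  intro i j hi hj
  rcases hexc i hi with h1 | h1 <;> rcases hexc j hj with h2 | h2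
  · exact sub_left_injective (h1.trans h2.symm)
  · exfalso
    have hi' : i = e + 1 := by rw [← h1, sub_add_cancel]
    subst h2
    rw [hi'] at hi
    rcases hend with h | h
    · exact hj h
    · exact hi h
  · exfalso
    have hj' : j = e + 1 := by rw [← h2, sub_add_cancel]
    subst h1
    rw [hj'] at hj
    rcases hend with h | h
    · exact hi h
    · exact hj h
  · exact h1.trans h2.symm

/-- Shifting or reversing a cycle. -/
theorem shift_cycle {n : ℕ} {c : ZMod n → V} (hc : IsCycleMap G n c) (a : ZMod n) :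
    IsCycleMap G n (fun i => c (i + a)) :=
  ⟨hc.1, hc.2.1.comp (add_left_injective a), fun i => by
    have := hc.2.2 (i + a)
    rwa [add_right_comm] at this⟩

theorem reverse_cycle {n : ℕ} {c : ZMod n → V} (hc : IsCycleMap G n c) :
    IsCycleMap G n (fun i => c (-i)) :=
  ⟨hc.1, hc.2.1.comp neg_injective, fun i => by
    have := hc.2.2 (-(i + 1))
    have e : -(i + 1) + 1 = -i := by ring
    rw [e] at this
    exact this.symm⟩

theorem mono_shift {n : ℕ} [NeZero n] (col : V → Bool) (c : ZMod n → V) (a : ZMod n) :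
    (mono col (fun i => c (i + a))).card = (mono col c).card := by
  apply Finset.card_equiv (Equiv.addRight a)
  intro i
  rw [mem_mono, mem_mono]
  simp only [Equiv.coe_addRight]
  rw [add_right_comm]

theorem mono_reverse {n : ℕ} [NeZero n] (col : V → Bool) (c : ZMod n → V) :
    (mono col (fun i => c (-i))).card = (mono col c).card := by
  apply Finset.card_equiv ((Equiv.addRight (1 : ZMod n)).trans (Equiv.neg (ZMod n)))
  intro i
  rw [mem_mono, mem_mono]
  simp only [Equiv.trans_apply, Equiv.coe_addRight, Equiv.neg_apply]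
  have e : -(i + 1) + 1 = -i := by ring
  rw [e]
  exact eq_comm

/-- The cycle as a sequence indexed by natural numbers. -/
theorem seq_facts {n : ℕ} {c : ZMod n → V} (hc : IsCycleMap G n c) :
    (∀ j : ℕ, G.Adj (c (j : ZMod n)) (c ((j + 1 : ℕ) : ZMod n))) ∧
    c ((n : ℕ) : ZMod n) = c 0 := by
  refine ⟨fun j => ?_, ?_⟩
  · have := hc.2.2 (j : ZMod n)
    rwa [← Nat.cast_one (R := ZMod n), ← Nat.cast_add] at this
  · rw [ZMod.natCast_self]

theorem mono_le {n : ℕ} [NeZero n] (col : V → Bool) (c : ZMod n → V) :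
    (mono col c).card ≤ ((Finset.range n).filter
      (fun j : ℕ => col (c (j : ZMod n)) = col (c ((j + 1 : ℕ) : ZMod n)))).card := by
  apply Finset.card_le_card_of_injOn ZMod.val
  · intro i hi
    have hi' := mem_mono.mp hi
    rw [Finset.mem_coe, Finset.mem_filter, Finset.mem_range]
    refine ⟨ZMod.val_lt i, ?_⟩
    rw [Nat.cast_add, Nat.cast_one, ZMod.natCast_zmod_val]
    exact hi'
  · intro i _ j _ h
    exact ZMod.val_injective n h

theorem card_three (n m : ℕ) (P : ℕ → Prop) [DecidablePred P]
    (h1 : ∀ i j, i < j → j < m → P i → P j → False)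
    (h2 : ∀ i j, m < i → i < j → j < n → P i → P j → False)
    (h3 : P m → ∀ i, i < n → i ≠ m → ¬ P i) : ((Finset.range n).filter P).card ≤ 2 := by
  by_cases hm : P m
  · have : (Finset.range n).filter P ⊆ {m} := by
      intro i hi
      rw [Finset.mem_filter, Finset.mem_range] at hi
      rw [Finset.mem_singleton]
      by_contra hne
      exact h3 hm i hi.1 hne hi.2
    have := Finset.card_le_card this
    rw [Finset.card_singleton] at this
    omega
  · have hsub : (Finset.range n).filter P ⊆
        (Finset.range m).filter P ∪ (Finset.Ioo m n).filter P := by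
      intro i hi
      rw [Finset.mem_filter, Finset.mem_range] at hi
      rw [Finset.mem_union, Finset.mem_filter, Finset.mem_filter, Finset.mem_range,
        Finset.mem_Ioo]
      rcases lt_trichotomy i m with h | h | h
      · exact Or.inl ⟨h, hi.2⟩
      · subst h; exact absurd hi.2 hm
      · exact Or.inr ⟨⟨h, hi.1⟩, hi.2⟩
    have c1 : ((Finset.range m).filter P).card ≤ 1 := by
      rw [Finset.card_le_one]
      intro a ha b hb
      rw [Finset.mem_filter, Finset.mem_range] at ha hb
      by_contra hne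
      rcases lt_or_gt_of_ne hne with h | h
      · exact h1 a b h hb.1 ha.2 hb.2
      · exact h1 b a h ha.1 hb.2 ha.2
    have c2 : ((Finset.Ioo m n).filter P).card ≤ 1 := by
      rw [Finset.card_le_one]
      intro a ha b hb
      rw [Finset.mem_filter, Finset.mem_Ioo] at ha hb
      by_contra hne
      rcases lt_or_gt_of_ne hne with h | h
      · exact h2 a b ha.1.1 h hb.1.2 ha.2 hb.2
      · exact h2 b a hb.1.1 h ha.1.2 hb.2 ha.2
    have := (Finset.card_le_card hsub).trans (Finset.card_union_le _ _)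
    omega

/-- A cycle from a finite sequence. -/
theorem cycleMap_of_nat {n : ℕ} (h3 : 3 ≤ n) (F : ℕ → V)
    (hinj : ∀ i j, i < n → j < n → F i = F j → i = j)
    (hadj : ∀ i, i + 1 < n → G.Adj (F i) (F (i + 1))) (hlast : G.Adj (F (n - 1)) (F 0)) :
    IsCycleMap G n (fun i => F i.val) := by
  have hne : NeZero n := ⟨by omega⟩
  refine ⟨h3, ?_, ?_⟩
  · intro i j hij
    exact ZMod.val_injective n (hinj _ _ (ZMod.val_lt i) (ZMod.val_lt j) hij)
  · intro i
    have hf : Fact (1 < n) := ⟨by omega⟩
    have hv : (i + 1).val = (i.val + 1) % n := by rw [ZMod.val_add, ZMod.val_one]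
    have hi := ZMod.val_lt i
    show G.Adj (F i.val) (F (i + 1).val)
    rw [hv]
    rcases Nat.lt_or_ge (i.val + 1) n with h | h
    · rw [Nat.mod_eq_of_lt h]
      exact hadj _ h
    · have e : i.val + 1 = n := by omega
      rw [e, Nat.mod_self]
      have e2 : i.val = n - 1 := by omega
      rw [e2]
      exact hlast

end General

/-! ### Coordinates on `M_r(C_{2k+1})` -/

theorem cyc_adj {k : ℕ} (hk : 1 ≤ k) (u v : Fin (2 * k + 1)) :
    (cycleGraph (2 * k + 1)).Adj u v ↔ (v.val = u.val + 1 ∨ u.val = v.val + 1 ∨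
      (u.val = 0 ∧ v.val = 2 * k) ∨ (u.val = 2 * k ∧ v.val = 0)) := by
  rw [cycleGraph_adj']
  have hu := u.isLt
  have hv := v.isLt
  rcases lt_trichotomy u v with h | h | h
  · have h' : u.val < v.val := h
    rw [Fin.coe_sub_iff_lt.mpr h, Fin.coe_sub_iff_le.mpr h.le]
    omega
  · subst h
    rw [sub_self]
    have h0 : ((0 : Fin (2 * k + 1)).val) = 0 := rfl
    rw [h0]
    omega
  · have h' : v.val < u.val := h
    rw [Fin.coe_sub_iff_lt.mpr h, Fin.coe_sub_iff_le.mpr h.le]
    omega

section Coordinates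

variable {k r : ℕ}

/-- The first coordinate (`0` for the vertex `z`). -/
def X (p : Option (Fin (2 * k + 1) × Fin r)) : ℕ :=
  match p with
  | some (u, _) => u.val
  | none => 0

/-- The level: `1, …, r` on the copies of the cycle and `r + 1` for `z`. -/
def L (p : Option (Fin (2 * k + 1) × Fin r)) : ℕ :=
  match p with
  | some (_, i) => i.val + 1
  | none => r + 1

theorem X_le (p : Option (Fin (2 * k + 1) × Fin r)) : X p ≤ 2 * k := by
  rcases p with _ | ⟨u, i⟩
  · exact Nat.zero_le _
  · have := u.isLt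
    simp only [X]
    omega

theorem L_none : L (none : Option (Fin (2 * k + 1) × Fin r)) = r + 1 := rfl

theorem L_pos (p : Option (Fin (2 * k + 1) × Fin r)) : 1 ≤ L p := by
  rcases p with _ | ⟨u, i⟩ <;> simp [L]

theorem L_le_of_ne (p : Option (Fin (2 * k + 1) × Fin r)) (h : p ≠ none) : L p ≤ r := by
  rcases p with _ | ⟨u, i⟩
  · exact absurd rfl h
  · have := i.isLt
    simp only [L]
    omega

theorem L_le (p : Option (Fin (2 * k + 1) × Fin r)) : L p ≤ r + 1 := by
  rcases p with _ | ⟨u, i⟩
  · exact le_rfl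
  · have := i.isLt
    simp only [L]
    omega

theorem adj_facts (hk : 1 ≤ k) {p q : Option (Fin (2 * k + 1) × Fin r)}
    (h : (genMycielski (cycleGraph (2 * k + 1)) r).Adj p q) :
    (L p ≤ r ∧ L q ≤ r ∧
      (X q = X p + 1 ∨ X p = X q + 1 ∨ (X p = 0 ∧ X q = 2 * k) ∨ (X p = 2 * k ∧ X q = 0)) ∧
      ((L p = 1 ∧ L q = 1) ∨ L p + 1 = L q ∨ L q + 1 = L p)) ∨
    (L p = r + 1 ∧ L q = r) ∨ (L q = r + 1 ∧ L p = r) := by
  rcases p with _ | ⟨u, i⟩ <;> rcases q with _ | ⟨v, j⟩
  · exact h.elim
  · right; left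
    exact ⟨rfl, h⟩
  · right; right
    exact ⟨rfl, h⟩
  · left
    have h1 := (cyc_adj hk u v).mp h.1
    have h2 := h.2
    have hi := i.isLt
    have hj := j.isLt
    simp only [X, L]
    omega

theorem lip_of_adj (hk : 1 ≤ k) {p q : Option (Fin (2 * k + 1) × Fin r)}
    (h : (genMycielski (cycleGraph (2 * k + 1)) r).Adj p q) :
    L q ≤ L p + 1 ∧ L p ≤ L q + 1 := by
  have := adj_facts hk h
  omega

end Coordinates

/-- The colouring by the parity of the level. -/
def colL {k r : ℕ} (p : Option (Fin (2 * k + 1) × Fin r)) : Bool := decide (L p % 2 = 0)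

/-- The colouring by the parity of the first coordinate. -/
def colX {k r : ℕ} (p : Option (Fin (2 * k + 1) × Fin r)) : Bool := decide (X p % 2 = 0)

/-- The distance of the first coordinate from `0` on the cycle. -/
def dd {k r : ℕ} (p : Option (Fin (2 * k + 1) × Fin r)) : ℕ := min (X p) (2 * k + 1 - X p)

/-- The colouring used for `r = k`. -/
def colH {k r : ℕ} (p : Option (Fin (2 * k + 1) × Fin r)) : Bool :=
  decide (min (dd p) (k + 1 - L p) % 2 = 0)

/-- The auxiliary quantity for `r = k`. -/
def sg {k r : ℕ} (p : Option (Fin (2 * k + 1) × Fin r)) : ℕ :=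
  if L p = k + 1 then 2 * k + 2 else dd p + L p

theorem colL_flat {k r : ℕ} (hk : 1 ≤ k) {p q : Option (Fin (2 * k + 1) × Fin r)}
    (h : (genMycielski (cycleGraph (2 * k + 1)) r).Adj p q) (hc : colL p = colL q) :
    L p = 1 ∧ L q = 1 := by
  have h1 := adj_facts hk h
  unfold colL at hc
  rw [decide_eq_decide] at hc
  omega

theorem nat_lip (f : ℕ → ℕ) (hf : ∀ j, f (j + 1) ≤ f j + 1 ∧ f j ≤ f (j + 1) + 1) (i j : ℕ) :
    f (i + j) ≤ f i + j ∧ f i ≤ f (i + j) + j := by
  induction j with
  | zero => simp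
  | succ j ih =>
    have := hf (i + j)
    rw [← add_assoc]
    omega

theorem mono_on (f : ℕ → ℕ) (a b : ℕ) (h : ∀ i, a ≤ i → i < b → f i ≤ f (i + 1)) :
    ∀ i j, a ≤ i → i ≤ j → j ≤ b → f i ≤ f j := by
  intro i j hai hij
  induction j, hij using Nat.le_induction with
  | base => intro _; exact le_rfl
  | succ j hij ih =>
    intro hjb
    exact (ih (by omega)).trans (h j (by omega) (by omega))

theorem anti_on (f : ℕ → ℕ) (a b : ℕ) (h : ∀ i, a ≤ i → i < b → f (i + 1) ≤ f i) :
    ∀ i j, a ≤ i → i ≤ j → j ≤ b → f j ≤ f i := by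
  intro i j hai hij
  induction j, hij using Nat.le_induction with
  | base => intro _; exact le_rfl
  | succ j hij ih =>
    intro hjb
    exact (h j (by omega) (by omega)).trans (ih (by omega))

/-- A short odd cycle through `z` has length `2r+1` and goes straight down and straight up. -/
theorem through_z {k r n : ℕ} (hk : 1 ≤ k) (hodd : Odd n) (hn : n ≤ 2 * r + 1)
    {c : ZMod n → Option (Fin (2 * k + 1) × Fin r)}
    (hc : IsCycleMap (genMycielski (cycleGraph (2 * k + 1)) r) n c) (h0 : c 0 = none) :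
    n = 2 * r + 1 ∧ (∀ j : ℕ, j ≤ r → L (c (j : ZMod n)) = r + 1 - j) ∧
      (∀ j : ℕ, r + 1 ≤ j → j ≤ n → L (c (j : ZMod n)) = j - r) := by
  have hn3 := hc.1
  have hne : NeZero n := ⟨by omega⟩
  obtain ⟨hadj, hlast⟩ := seq_facts hc
  -- a flat edge
  obtain ⟨m, hmn, hm1, hm2⟩ : ∃ m : ℕ, m < n ∧ L (c (m : ZMod n)) = 1 ∧
      L (c ((m + 1 : ℕ) : ZMod n)) = 1 := by
    have hpos : 0 < (mono colL c).card := (odd_mono hodd colL c).pos
    obtain ⟨i, hi⟩ := Finset.card_pos.mp hpos
    have h1 := mem_mono.mp hi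
    have h2 := colL_flat hk (hc.2.2 i) h1
    refine ⟨i.val, ZMod.val_lt i, ?_, ?_⟩
    · rw [ZMod.natCast_zmod_val]; exact h2.1
    · rw [Nat.cast_add, Nat.cast_one, ZMod.natCast_zmod_val]; exact h2.2
  let f : ℕ → ℕ := fun j => L (c (j : ZMod n))
  have hf : ∀ j, f (j + 1) ≤ f j + 1 ∧ f j ≤ f (j + 1) + 1 := fun j => lip_of_adj hk (hadj j)
  have f0 : f 0 = r + 1 := by
    show L (c ((0 : ℕ) : ZMod n)) = r + 1
    rw [Nat.cast_zero, h0]
    rfl
  have fn : f n = r + 1 := by
    show L (c ((n : ℕ) : ZMod n)) = r + 1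
    rw [hlast, h0]
    rfl
  have fm : f m = 1 := hm1
  have fm1 : f (m + 1) = 1 := hm2
  have e1 := nat_lip f hf 0 m
  rw [zero_add] at e1
  have e2 := nat_lip f hf (m + 1) (n - (m + 1))
  rw [show m + 1 + (n - (m + 1)) = n by omega] at e2
  have hnr : n = 2 * r + 1 := by omega
  have hmr : m = r := by omega
  refine ⟨hnr, ?_, ?_⟩
  · intro j hj
    have e3 := nat_lip f hf 0 j
    have e4 := nat_lip f hf j (r - j)
    rw [zero_add] at e3
    rw [show j + (r - j) = m by omega] at e4
    show f j = r + 1 - j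
    omega
  · intro j hj hjn
    have e3 := nat_lip f hf (m + 1) (j - (m + 1))
    have e4 := nat_lip f hf j (n - j)
    rw [show m + 1 + (j - (m + 1)) = j by omega] at e3
    rw [show j + (n - j) = n by omega] at e4
    show f j = j - r
    omega

/-- A short odd cycle avoiding `z` winds once around. -/
theorem winding {k r n : ℕ} (hk : 1 ≤ k) (hodd : Odd n) (hn : n ≤ 2 * k + 1)
    {c : ZMod n → Option (Fin (2 * k + 1) × Fin r)}
    (hc : IsCycleMap (genMycielski (cycleGraph (2 * k + 1)) r) n c) (hz : ∀ i, c i ≠ none) :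
    n = 2 * k + 1 ∧
      ((∀ j : ℕ, j ≤ n → ((X (c (j : ZMod n)) : ℕ) : ZMod (2 * k + 1)) =
          ((X (c 0) : ℕ) : ZMod (2 * k + 1)) + (j : ZMod (2 * k + 1))) ∨
       (∀ j : ℕ, j ≤ n → ((X (c (j : ZMod n)) : ℕ) : ZMod (2 * k + 1)) =
          ((X (c 0) : ℕ) : ZMod (2 * k + 1)) - (j : ZMod (2 * k + 1)))) := by
  classical
  have hn3 := hc.1
  have hne : NeZero n := ⟨by omega⟩
  obtain ⟨hadj, hlast⟩ := seq_facts hc
  let x : ℕ → ℕ := fun j => X (c (j : ZMod n))
  let plus : ℕ → Prop := fun j => x (j + 1) = x j + 1 ∨ (x j = 2 * k ∧ x (j + 1) = 0)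
  let b : ℕ → ℕ := fun j => ((Finset.range j).filter (fun i => ¬ plus i)).card
  have hb0 : b 0 = 0 := rfl
  have hbs : ∀ j, b (j + 1) = b j + (if plus j then 0 else 1) := by
    intro j
    show ((Finset.range (j + 1)).filter (fun i => ¬ plus i)).card = _
    rw [Finset.range_add_one, Finset.filter_insert]
    by_cases h : plus j
    · rw [if_neg (not_not.mpr h), if_pos h, add_zero]
    · rw [if_pos h, if_neg h, Finset.card_insert_of_notMem (by simp)]
  have hk0 : ((2 * k + 1 : ℕ) : ZMod (2 * k + 1)) = 0 := ZMod.natCast_self _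
  have hcast : ((2 * k : ℕ) : ZMod (2 * k + 1)) = -1 := by
    rw [Nat.cast_add, Nat.cast_one] at hk0
    exact eq_neg_of_add_eq_zero_left hk0
  have hrel : ∀ j, ((x j : ℕ) : ZMod (2 * k + 1)) =
      ((x 0 : ℕ) : ZMod (2 * k + 1)) + (j : ZMod (2 * k + 1)) - 2 * (b j : ZMod (2 * k + 1)) := by
    intro j
    induction j with
    | zero => rw [hb0]; simp
    | succ j ih =>
      rw [hbs]
      by_cases h : plus j
      · rw [if_pos h]
        have hx : ((x (j + 1) : ℕ) : ZMod (2 * k + 1)) = (x j : ZMod (2 * k + 1)) + 1 := by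
          rcases h with h | ⟨h, h'⟩
          · rw [h, Nat.cast_add, Nat.cast_one]
          · rw [h, h', hcast]; simp
        rw [hx, ih]
        push_cast
        ring
      · rw [if_neg h]
        have hx : ((x (j + 1) : ℕ) : ZMod (2 * k + 1)) = (x j : ZMod (2 * k + 1)) - 1 := by
          have h1 := adj_facts hk (hadj j)
          have l1 := L_le_of_ne _ (hz (j : ZMod n))
          have l2 := L_le_of_ne _ (hz ((j + 1 : ℕ) : ZMod n))
          have h2 : x (j + 1) = x j + 1 ∨ x j = x (j + 1) + 1 ∨ (x j = 0 ∧ x (j + 1) = 2 * k) ∨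
              (x j = 2 * k ∧ x (j + 1) = 0) := by
            rcases h1 with h1 | h1 | h1
            · exact h1.2.2.1
            · omega
            · omega
          rcases h2 with h2 | h2 | ⟨h2, h2'⟩ | ⟨h2, h2'⟩
          · exact absurd (Or.inl h2) h
          · rw [h2, Nat.cast_add, Nat.cast_one]; ring
          · rw [h2, h2', hcast]; simp
          · exact absurd (Or.inr ⟨h2, h2'⟩) h
        rw [hx, ih]
        push_cast
        ring
  have hbn : b n ≤ n := by
    have := Finset.card_filter_le (Finset.range n) (fun i => ¬ plus i)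
    rwa [Finset.card_range] at this
  have hdvd : ((2 * k + 1 : ℕ) : ℤ) ∣ (n : ℤ) - 2 * (b n : ℤ) := by
    rw [← ZMod.intCast_zmod_eq_zero_iff_dvd]
    have h1 := hrel n
    have h2 : x n = x 0 := by
      show X (c ((n : ℕ) : ZMod n)) = X (c ((0 : ℕ) : ZMod n))
      rw [hlast, Nat.cast_zero]
    rw [h2] at h1
    have h3 : (n : ZMod (2 * k + 1)) - 2 * (b n : ZMod (2 * k + 1)) = 0 := by
      have h4 : ((x 0 : ℕ) : ZMod (2 * k + 1)) + ((n : ZMod (2 * k + 1)) -
          2 * (b n : ZMod (2 * k + 1))) = ((x 0 : ℕ) : ZMod (2 * k + 1)) := by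
        rw [← add_sub_assoc]; exact h1.symm
      exact add_eq_left.mp h4
    push_cast
    exact h3
  obtain ⟨t, ht⟩ := hodd
  have hcases : n = 2 * k + 1 ∧ (b n = 0 ∨ b n = n) := by
    rcases le_or_gt (2 * b n) n with h | h
    · have h1 : (0 : ℤ) < (n : ℤ) - 2 * (b n : ℤ) := by omega
      have h2 := Int.le_of_dvd h1 hdvd
      push_cast at h2
      omega
    · have h1 : (0 : ℤ) < -((n : ℤ) - 2 * (b n : ℤ)) := by omega
      have h2 := Int.le_of_dvd h1 ((dvd_neg).mpr hdvd)
      push_cast at h2
      omega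
  refine ⟨hcases.1, ?_⟩
  have hx0 : x 0 = X (c 0) := by
    show X (c ((0 : ℕ) : ZMod n)) = X (c 0)
    rw [Nat.cast_zero]
  rcases hcases.2 with hb | hb
  · left
    intro j hj
    have h1 : b j = 0 := by
      have h2 : b j ≤ b n := by
        apply Finset.card_le_card
        apply Finset.filter_subset_filter
        exact Finset.range_subset_range.mpr hj
      omega
    have h3 := hrel j
    rw [h1] at h3
    rw [← hx0]
    simpa using h3
  · right
    intro j hj
    have hall : ∀ i ∈ Finset.range n, ¬ plus i := by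
      apply Finset.filter_card_eq
      rw [Finset.card_range]
      exact hb
    have h1 : b j = j := by
      show ((Finset.range j).filter (fun i => ¬ plus i)).card = j
      rw [Finset.filter_true_of_mem, Finset.card_range]
      intro i hi
      apply hall
      rw [Finset.mem_range] at hi ⊢
      omega
    have h3 := hrel j
    rw [h1] at h3
    rw [← hx0]
    show ((x j : ℕ) : ZMod (2 * k + 1)) = _
    rw [h3]
    ring

theorem nat_eq_of_cast {k a b : ℕ} (ha : a < 2 * k + 1) (hb : b < 2 * k + 1)
    (h : ((a : ℕ) : ZMod (2 * k + 1)) = (b : ZMod (2 * k + 1))) : a = b := by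
  have := congrArg ZMod.val h
  rwa [ZMod.val_natCast_of_lt ha, ZMod.val_natCast_of_lt hb] at this

/-- Normal form of a short odd cycle avoiding `z`. -/
theorem normal_form {k r n : ℕ} [NeZero n] (hk : 1 ≤ k) (hodd : Odd n) (hn : n ≤ 2 * k + 1)
    {c : ZMod n → Option (Fin (2 * k + 1) × Fin r)}
    (hc : IsCycleMap (genMycielski (cycleGraph (2 * k + 1)) r) n c) (hz : ∀ i, c i ≠ none) :
    n = 2 * k + 1 ∧ ∃ c' : ZMod n → Option (Fin (2 * k + 1) × Fin r),
      IsCycleMap (genMycielski (cycleGraph (2 * k + 1)) r) n c' ∧ (∀ i, c' i ≠ none) ∧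
      (∀ j : ℕ, j ≤ 2 * k → X (c' (j : ZMod n)) = j) ∧
      ∀ col : Option (Fin (2 * k + 1) × Fin r) → Bool,
        (mono col c').card = (mono col c).card := by
  obtain ⟨hnk, hw⟩ := winding hk hodd hn hc hz
  refine ⟨hnk, ?_⟩
  have hk0 : ((2 * k + 1 : ℕ) : ZMod (2 * k + 1)) = 0 := ZMod.natCast_self _
  have hx0 := X_le (c 0)
  -- a vertex with first coordinate zero
  obtain ⟨j0, hj0⟩ : ∃ j0 : ℕ, X (c (j0 : ZMod n)) = 0 := by
    rcases hw with hw | hw
    · refine ⟨2 * k + 1 - X (c 0), ?_⟩
      have h1 := hw (2 * k + 1 - X (c 0)) (by omega)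
      rw [← Nat.cast_add, show X (c 0) + (2 * k + 1 - X (c 0)) = 2 * k + 1 by omega, hk0] at h1
      apply nat_eq_of_cast (k := k)
      · have := X_le (c ((2 * k + 1 - X (c 0) : ℕ) : ZMod n)); omega
      · omega
      · rw [h1]; simp
    · refine ⟨X (c 0), ?_⟩
      have h1 := hw (X (c 0)) (by omega)
      rw [sub_self] at h1
      apply nat_eq_of_cast (k := k)
      · have := X_le (c ((X (c 0) : ℕ) : ZMod n)); omega
      · omega
      · rw [h1]; simp
  -- shift
  let c1 : ZMod n → Option (Fin (2 * k + 1) × Fin r) := fun i => c (i + (j0 : ZMod n))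
  have hc1 : IsCycleMap (genMycielski (cycleGraph (2 * k + 1)) r) n c1 := shift_cycle hc _
  have hz1 : ∀ i, c1 i ≠ none := fun i => hz _
  have hm1 : ∀ col : Option (Fin (2 * k + 1) × Fin r) → Bool,
      (mono col c1).card = (mono col c).card := fun col => mono_shift col c _
  have hc10 : X (c1 0) = 0 := by
    show X (c (0 + (j0 : ZMod n))) = 0
    rw [zero_add]; exact hj0
  obtain ⟨-, hw1⟩ := winding hk hodd hn hc1 hz1
  rcases hw1 with hw1 | hw1
  · refine ⟨c1, hc1, hz1, ?_, hm1⟩
    intro j hj
    apply nat_eq_of_cast (k := k)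
    · have := X_le (c1 (j : ZMod n)); omega
    · omega
    · rw [hw1 j (by omega), hc10]; simp
  · refine ⟨fun i => c1 (-i), reverse_cycle hc1, fun i => hz1 _, ?_,
      fun col => (mono_reverse col c1).trans (hm1 col)⟩
    intro j hj
    have e : (-(j : ZMod n)) = ((n - j : ℕ) : ZMod n) := by
      rw [Nat.cast_sub (by omega), ZMod.natCast_self]; ring
    show X (c1 (-(j : ZMod n))) = j
    rw [e]
    apply nat_eq_of_cast (k := k)
    · have := X_le (c1 ((n - j : ℕ) : ZMod n)); omega
    · omega
    · rw [hw1 (n - j) (by omega), hc10, hnk, Nat.cast_sub (by omega), hk0]; simp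

/-! ### The two short odd cycles -/

theorem cycle_level_one {k r : ℕ} (hk : 1 ≤ k) (hr : 1 ≤ r) :
    ∃ c : ZMod (2 * k + 1) → Option (Fin (2 * k + 1) × Fin r),
      IsCycleMap (genMycielski (cycleGraph (2 * k + 1)) r) (2 * k + 1) c := by
  let F : ℕ → Option (Fin (2 * k + 1) × Fin r) := fun j =>
    some (⟨j % (2 * k + 1), Nat.mod_lt _ (by omega)⟩, ⟨0, hr⟩)
  refine ⟨fun i => F i.val, cycleMap_of_nat (by omega) F ?_ ?_ ?_⟩
  · intro i j hi hj h
    have h1 := congrArg (fun p => X p) h
    simp only [F, X] at h1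
    rwa [Nat.mod_eq_of_lt hi, Nat.mod_eq_of_lt hj] at h1
  · intro i hi
    refine ⟨(cyc_adj hk _ _).mpr ?_, Or.inl ⟨rfl, rfl⟩⟩
    left
    show (i + 1) % (2 * k + 1) = i % (2 * k + 1) + 1
    rw [Nat.mod_eq_of_lt hi, Nat.mod_eq_of_lt (by omega)]
  · refine ⟨(cyc_adj hk _ _).mpr ?_, Or.inl ⟨rfl, rfl⟩⟩
    right; right; right
    constructor
    · show (2 * k + 1 - 1) % (2 * k + 1) = 2 * k
      rw [Nat.mod_eq_of_lt (by omega)]
      omega
    · show 0 % (2 * k + 1) = 0
      exact Nat.zero_mod _

theorem cycle_through_z {k r : ℕ} (hk : 1 ≤ k) (hr : 1 ≤ r) :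
    ∃ c : ZMod (2 * r + 1) → Option (Fin (2 * k + 1) × Fin r),
      IsCycleMap (genMycielski (cycleGraph (2 * k + 1)) r) (2 * r + 1) c := by
  -- position `j` with `1 ≤ j ≤ r` has level `r + 1 - j`, position `j ≥ r + 1` has level `j - r`
  let F : ℕ → Option (Fin (2 * k + 1) × Fin r) := fun j =>
    if j = 0 then none else
      some (⟨(j + r) % 2, by omega⟩,
        ⟨if j ≤ r then min (r - j) (r - 1) else min (j - r - 1) (r - 1), by split_ifs <;> omega⟩)
  have hF0 : F 0 = none := rfl
  have hF : ∀ j, j ≠ 0 → F j = some (⟨(j + r) % 2, by omega⟩,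
        ⟨if j ≤ r then min (r - j) (r - 1) else min (j - r - 1) (r - 1), by split_ifs <;> omega⟩) :=
    fun j hj => if_neg hj
  refine ⟨fun i => F i.val, cycleMap_of_nat (by omega) F ?_ ?_ ?_⟩
  · intro i j hi hj h
    by_cases hi0 : i = 0
    · by_cases hj0 : j = 0
      · rw [hi0, hj0]
      · rw [hi0, hF0, hF j hj0] at h
        exact absurd h (by simp)
    · by_cases hj0 : j = 0
      · rw [hj0, hF0, hF i hi0] at h
        exact absurd h (by simp)
      · rw [hF i hi0, hF j hj0] at h
        have h1 := Option.some_injective _ h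
        rw [Prod.mk.injEq, Fin.mk.injEq, Fin.mk.injEq] at h1
        obtain ⟨h2, h3⟩ := h1
        split_ifs at h3 <;> omega
  · intro i hi
    by_cases hi0 : i = 0
    · subst hi0
      rw [hF0, hF _ (by omega)]
      show (if 0 + 1 ≤ r then min (r - (0 + 1)) (r - 1) else min (0 + 1 - r - 1) (r - 1)) + 1 = r
      rw [if_pos (by omega)]
      omega
    · rw [hF i hi0, hF (i + 1) (by omega)]
      refine ⟨(cyc_adj hk _ _).mpr ?_, ?_⟩
      · show (i + 1 + r) % 2 = (i + r) % 2 + 1 ∨ (i + r) % 2 = (i + 1 + r) % 2 + 1 ∨ _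
        omega
      · show ((if i ≤ r then min (r - i) (r - 1) else min (i - r - 1) (r - 1)) = 0 ∧
            (if i + 1 ≤ r then min (r - (i + 1)) (r - 1) else min (i + 1 - r - 1) (r - 1)) = 0) ∨
          (if i ≤ r then min (r - i) (r - 1) else min (i - r - 1) (r - 1)) + 1 =
            (if i + 1 ≤ r then min (r - (i + 1)) (r - 1) else min (i + 1 - r - 1) (r - 1)) ∨
          (if i + 1 ≤ r then min (r - (i + 1)) (r - 1) else min (i + 1 - r - 1) (r - 1)) + 1 =
            (if i ≤ r then min (r - i) (r - 1) else min (i - r - 1) (r - 1))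
        split_ifs <;> omega
  · rw [hF0, hF _ (by omega)]
    show (if 2 * r + 1 - 1 ≤ r then min (r - (2 * r + 1 - 1)) (r - 1) else
      min (2 * r + 1 - 1 - r - 1) (r - 1)) + 1 = r
    rw [if_neg (by omega)]
    omega

/-! ### The three cases -/

/-- If a cycle meets `z` we can shift it so that it starts there. -/
theorem start_at_z {k r n : ℕ} [NeZero n]
    {c : ZMod n → Option (Fin (2 * k + 1) × Fin r)}
    (hc : IsCycleMap (genMycielski (cycleGraph (2 * k + 1)) r) n c) (hz : ∃ i, c i = none) :
    ∃ c' : ZMod n → Option (Fin (2 * k + 1) × Fin r),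
      IsCycleMap (genMycielski (cycleGraph (2 * k + 1)) r) n c' ∧ c' 0 = none ∧
      ∀ col : Option (Fin (2 * k + 1) × Fin r) → Bool,
        (mono col c').card = (mono col c).card := by
  obtain ⟨i, hi⟩ := hz
  exact ⟨fun j => c (j + i), shift_cycle hc i, by simpa using hi, fun col => mono_shift col c i⟩

theorem case_small {k r n : ℕ} [NeZero n] (hk : 1 ≤ k) (hrk : r < k) (hodd : Odd n)
    (hn : n ≤ 2 * r + 1) {c : ZMod n → Option (Fin (2 * k + 1) × Fin r)}
    (hc : IsCycleMap (genMycielski (cycleGraph (2 * k + 1)) r) n c) :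
    (mono colL c).card ≤ 2 := by
  by_cases hz : ∃ i, c i = none
  · obtain ⟨c', hc', h0, hm⟩ := start_at_z hc hz
    rw [← hm]
    obtain ⟨hnr, h1, h2⟩ := through_z hk hodd hn hc' h0
    obtain ⟨hadj, -⟩ := seq_facts hc'
    refine (mono_le colL c').trans ?_
    apply card_three n r
    · intro i j hij hj hPi _
      have h3 := colL_flat hk (hadj i) hPi
      have h4 := h1 i (by omega)
      omega
    · intro i j hi hij hj _ hPj
      have h3 := colL_flat hk (hadj j) hPj
      have h4 := h2 j (by omega) (by omega)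
      omega
    · intro _ i hi hne hPi
      have h3 := colL_flat hk (hadj i) hPi
      rcases lt_or_gt_of_ne hne with h | h
      · have h4 := h1 i (by omega)
        omega
      · have h4 := h2 (i + 1) (by omega) (by omega)
        omega
  · push Not at hz
    obtain ⟨hnk, -⟩ := winding hk hodd (by omega) hc hz
    omega

theorem colX_ne {k r : ℕ} {p q : Option (Fin (2 * k + 1) × Fin r)} (h : X q = X p + 1) :
    colX p ≠ colX q := by
  unfold colX
  intro hc
  rw [decide_eq_decide] at hc
  omega

theorem case_large {k r n : ℕ} [NeZero n] (hk : 1 ≤ k) (hrk : k < r) (hodd : Odd n)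
    (hn : n ≤ 2 * k + 1) {c : ZMod n → Option (Fin (2 * k + 1) × Fin r)}
    (hc : IsCycleMap (genMycielski (cycleGraph (2 * k + 1)) r) n c) :
    (mono colX c).card ≤ 2 := by
  by_cases hz : ∃ i, c i = none
  · obtain ⟨c', hc', h0, -⟩ := start_at_z hc hz
    obtain ⟨hnr, -, -⟩ := through_z hk hodd (by omega) hc' h0
    omega
  · push Not at hz
    obtain ⟨hnk, c', hc', hz', hX, hm⟩ := normal_form hk hodd hn hc hz
    rw [← hm]
    refine (mono_le colX c').trans ?_
    apply card_three n (2 * k)
    · intro i j hij hj hPi _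
      refine colX_ne ?_ hPi
      rw [hX i (by omega), hX (i + 1) (by omega)]
    · intro i j hi hij hj _ _
      omega
    · intro _ i hi hne hPi
      refine colX_ne ?_ hPi
      rw [hX i (by omega), hX (i + 1) (by omega)]

theorem dd_le {k r : ℕ} (p : Option (Fin (2 * k + 1) × Fin r)) : dd p ≤ k := by
  have := X_le p
  unfold dd
  omega

theorem dd_adj {k r : ℕ} {p q : Option (Fin (2 * k + 1) × Fin r)}
    (h : X q = X p + 1 ∨ X p = X q + 1 ∨ (X p = 0 ∧ X q = 2 * k) ∨ (X p = 2 * k ∧ X q = 0)) :
    dd q = dd p + 1 ∨ dd p = dd q + 1 ∨ (dd p = k ∧ dd q = k) := by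
  have h2 := X_le p
  have h3 := X_le q
  unfold dd
  omega

theorem colH_mono {k : ℕ} (hk : 1 ≤ k) {p q : Option (Fin (2 * k + 1) × Fin k)}
    (h : (genMycielski (cycleGraph (2 * k + 1)) k).Adj p q) (hc : colH p = colH q) :
    (sg p ≤ k ∧ k + 2 ≤ sg q) ∨ (sg q ≤ k ∧ k + 2 ≤ sg p) ∨
      (L p = 1 ∧ L q = 1 ∧ dd p = k ∧ dd q = k) := by
  have h1 := adj_facts hk h
  have h4 := L_pos p
  have h5 := L_pos q
  have h6 := dd_le p
  have h7 := dd_le q
  unfold colH at hc
  rw [decide_eq_decide] at hc
  unfold sg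
  rcases h1 with ⟨l1, l2, hX, hL⟩ | ⟨l1, l2⟩ | ⟨l1, l2⟩
  · have hd := dd_adj hX
    rw [if_neg (by omega), if_neg (by omega)]
    clear hX h
    generalize dd p = a at *
    generalize dd q = b at *
    generalize L p = u at *
    generalize L q = v at *
    rcases hd with hd | hd | hd <;> rcases hL with hL | hL | hL <;> omega
  · rw [if_pos l1, if_neg (by omega)]
    rw [l1, l2] at hc
    clear h
    generalize dd p = a at *
    generalize dd q = b at *
    omega
  · rw [if_pos l1, if_neg (by omega)]
    rw [l1, l2] at hc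
    clear h
    generalize dd p = a at *
    generalize dd q = b at *
    omega

theorem sg_level {k : ℕ} (hk : 1 ≤ k) {p q : Option (Fin (2 * k + 1) × Fin k)}
    (h : (genMycielski (cycleGraph (2 * k + 1)) k).Adj p q) (hL : L p = L q + 1) :
    sg q ≤ sg p := by
  have h1 := adj_facts hk h
  have h2 := X_le p
  have h3 := X_le q
  have h4 := L_pos p
  have h5 := L_pos q
  unfold sg dd
  split_ifs <;> omega

theorem sg_dist {k : ℕ} (hk : 1 ≤ k) {p q : Option (Fin (2 * k + 1) × Fin k)}
    (h : (genMycielski (cycleGraph (2 * k + 1)) k).Adj p q) (hp : p ≠ none) (hq : q ≠ none)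
    (hd : dd q = dd p + 1) : sg p ≤ sg q := by
  have h1 := adj_facts hk h
  have h2 := L_le_of_ne p hp
  have h3 := L_le_of_ne q hq
  unfold sg
  split_ifs <;> omega

theorem case_equal {k n : ℕ} [NeZero n] (hk : 1 ≤ k) (hodd : Odd n)
    (hn : n ≤ 2 * k + 1) {c : ZMod n → Option (Fin (2 * k + 1) × Fin k)}
    (hc : IsCycleMap (genMycielski (cycleGraph (2 * k + 1)) k) n c) :
    (mono colH c).card ≤ 2 := by
  by_cases hz : ∃ i, c i = none
  · obtain ⟨c', hc', h0, hm⟩ := start_at_z hc hz
    rw [← hm]
    obtain ⟨hnr, h1, h2⟩ := through_z hk hodd hn hc' h0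
    obtain ⟨hadj, -⟩ := seq_facts hc'
    refine (mono_le colH c').trans ?_
    have hanti := anti_on (fun j : ℕ => sg (c' (j : ZMod n))) 0 k (by
      intro i _ hi
      apply sg_level hk (hadj i)
      rw [h1 i (by omega), h1 (i + 1) (by omega)]
      omega)
    have hmono := mono_on (fun j : ℕ => sg (c' (j : ZMod n))) (k + 1) n (by
      intro i hi hin
      apply sg_level hk (hadj i).symm
      rw [h2 i (by omega) (by omega), h2 (i + 1) (by omega) (by omega)]
      omega)
    apply card_three n k
    · intro i j hij hj hPi hPj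
      have a1 := colH_mono hk (hadj i) hPi
      have a2 := colH_mono hk (hadj j) hPj
      have b1 := hanti i (i + 1) (by omega) (by omega) (by omega)
      have b2 := hanti (i + 1) j (by omega) (by omega) (by omega)
      have b3 := hanti j (j + 1) (by omega) (by omega) (by omega)
      have l1 := h1 i (by omega)
      have l2 := h1 j (by omega)
      omega
    · intro i j hi hij hj hPi hPj
      have a1 := colH_mono hk (hadj i) hPi
      have a2 := colH_mono hk (hadj j) hPj
      have b1 := hmono i (i + 1) (by omega) (by omega) (by omega)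
      have b2 := hmono (i + 1) j (by omega) (by omega) (by omega)
      have b3 := hmono j (j + 1) (by omega) (by omega) (by omega)
      have l1 := h2 (i + 1) (by omega) (by omega)
      have l2 := h2 (j + 1) (by omega) (by omega)
      omega
    · intro hPk i hi hne hPi
      have a1 := colH_mono hk (hadj k) hPk
      have a2 := colH_mono hk (hadj i) hPi
      have l1 := h1 k (by omega)
      have l2 := h2 (k + 1) (by omega) (by omega)
      have d1 := dd_le (c' ((k : ℕ) : ZMod n))
      have d2 := dd_le (c' ((k + 1 : ℕ) : ZMod n))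
      have s1 : sg (c' ((k : ℕ) : ZMod n)) = dd (c' ((k : ℕ) : ZMod n)) + L (c' ((k : ℕ) : ZMod n)) :=
        if_neg (by omega)
      have s2 : sg (c' ((k + 1 : ℕ) : ZMod n)) =
          dd (c' ((k + 1 : ℕ) : ZMod n)) + L (c' ((k + 1 : ℕ) : ZMod n)) :=
        if_neg (by omega)
      rcases lt_or_gt_of_ne hne with h | h
      · have b1 := hanti i k (by omega) (by omega) (by omega)
        have b2 := hanti (i + 1) k (by omega) (by omega) (by omega)
        have l3 := h1 i (by omega)
        omega
      · have b1 := hmono (k + 1) i (by omega) (by omega) (by omega)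
        have b2 := hmono (k + 1) (i + 1) (by omega) (by omega) (by omega)
        have l3 := h2 (i + 1) (by omega) (by omega)
        omega
  · push Not at hz
    obtain ⟨hnk, c', hc', hz', hX, hm⟩ := normal_form hk hodd hn hc hz
    rw [← hm]
    obtain ⟨hadj, hlast⟩ := seq_facts hc'
    refine (mono_le colH c').trans ?_
    have hd1 : ∀ j : ℕ, j ≤ k → dd (c' (j : ZMod n)) = j := by
      intro j hj
      unfold dd
      rw [hX j (by omega)]
      omega
    have hd2 : ∀ j : ℕ, k + 1 ≤ j → j ≤ n → dd (c' (j : ZMod n)) = 2 * k + 1 - j := by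
      intro j hj hjn
      unfold dd
      rcases Nat.lt_or_ge j n with h | h
      · rw [hX j (by omega)]
        omega
      · have hj' : j = n := by omega
        have h0 := hX 0 (by omega)
        rw [Nat.cast_zero] at h0
        rw [hj', hlast, h0]
        omega
    have hmono := mono_on (fun j : ℕ => sg (c' (j : ZMod n))) 0 k (by
      intro i _ hi
      apply sg_dist hk (hadj i) (hz' _) (hz' _)
      rw [hd1 i (by omega), hd1 (i + 1) (by omega)])
    have hanti := anti_on (fun j : ℕ => sg (c' (j : ZMod n))) (k + 1) n (by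
      intro i hi hin
      apply sg_dist hk (hadj i).symm (hz' _) (hz' _)
      rw [hd2 i (by omega) (by omega), hd2 (i + 1) (by omega) (by omega)]
      omega)
    apply card_three n k
    · intro i j hij hj hPi hPj
      have a1 := colH_mono hk (hadj i) hPi
      have a2 := colH_mono hk (hadj j) hPj
      have b1 := hmono i (i + 1) (by omega) (by omega) (by omega)
      have b2 := hmono (i + 1) j (by omega) (by omega) (by omega)
      have b3 := hmono j (j + 1) (by omega) (by omega) (by omega)
      have l1 := hd1 i (by omega)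
      have l2 := hd1 j (by omega)
      omega
    · intro i j hi hij hj hPi hPj
      have a1 := colH_mono hk (hadj i) hPi
      have a2 := colH_mono hk (hadj j) hPj
      have b1 := hanti i (i + 1) (by omega) (by omega) (by omega)
      have b2 := hanti (i + 1) j (by omega) (by omega) (by omega)
      have b3 := hanti j (j + 1) (by omega) (by omega) (by omega)
      have l1 := hd2 (i + 1) (by omega) (by omega)
      have l2 := hd2 (j + 1) (by omega) (by omega)
      omega
    · intro hPk i hi hne hPi
      have a1 := colH_mono hk (hadj k) hPk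
      have a2 := colH_mono hk (hadj i) hPi
      have d1 := hd1 k (by omega)
      have d2 := hd2 (k + 1) (by omega) (by omega)
      have l1 := L_pos (c' ((k : ℕ) : ZMod n))
      have l2 := L_pos (c' ((k + 1 : ℕ) : ZMod n))
      have l3 := L_le_of_ne _ (hz' ((k : ℕ) : ZMod n))
      have l4 := L_le_of_ne _ (hz' ((k + 1 : ℕ) : ZMod n))
      have s1 : sg (c' ((k : ℕ) : ZMod n)) = dd (c' ((k : ℕ) : ZMod n)) + L (c' ((k : ℕ) : ZMod n)) :=
        if_neg (by omega)
      have s2 : sg (c' ((k + 1 : ℕ) : ZMod n)) =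
          dd (c' ((k + 1 : ℕ) : ZMod n)) + L (c' ((k + 1 : ℕ) : ZMod n)) :=
        if_neg (by omega)
      rcases lt_or_gt_of_ne hne with h | h
      · have b1 := hmono i k (by omega) (by omega) (by omega)
        have b2 := hmono (i + 1) k (by omega) (by omega) (by omega)
        have l5 := hd1 i (by omega)
        omega
      · have b1 := hanti (k + 1) i (by omega) (by omega) (by omega)
        have b2 := hanti (k + 1) (i + 1) (by omega) (by omega) (by omega)
        have l5 := hd2 (i + 1) (by omega) (by omega)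
        omega

/-- **Theorem.** For all `r ≥ 1` and `k ≥ 1` the generalized Mycielski graph `M_r(C_{2k+1})` has an
orientation in which every shortest odd cycle is alternating. -/
theorem result : ∀ r k : ℕ, 1 ≤ r → 1 ≤ k →
    ∃ D : Option (Fin (2 * k + 1) × Fin r) → Option (Fin (2 * k + 1) × Fin r) → Prop,
      IsOrientation (genMycielski (cycleGraph (2 * k + 1)) r) D ∧
      ∀ (n : ℕ) (c : ZMod n → Option (Fin (2 * k + 1) × Fin r)),
        IsShortestOddCycle (genMycielski (cycleGraph (2 * k + 1)) r) n c → IsAlternating D c := by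
  intro r k hr hk
  obtain ⟨c1, hc1⟩ := cycle_level_one (k := k) (r := r) hk hr
  obtain ⟨c2, hc2⟩ := cycle_through_z (k := k) (r := r) hk hr
  have hrank : Function.Injective
      (Encodable.encode : Option (Fin (2 * k + 1) × Fin r) → ℕ) := Encodable.encode_injective
  rcases lt_trichotomy r k with h | h | h
  · refine ⟨orient _ colL Encodable.encode, orient_isOrientation colL _ hrank, ?_⟩
    rintro n c ⟨hodd, hc, hmin⟩
    have hne : NeZero n := ⟨by have := hc.1; omega⟩
    exact alternating_of_mono colL _ hrank hodd c hc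
      (case_small hk h hodd (hmin _ c2 ⟨r, rfl⟩ hc2) hc)
  · subst h
    refine ⟨orient _ colH Encodable.encode, orient_isOrientation colH _ hrank, ?_⟩
    rintro n c ⟨hodd, hc, hmin⟩
    have hne : NeZero n := ⟨by have := hc.1; omega⟩
    exact alternating_of_mono colH _ hrank hodd c hc
      (case_equal hk hodd (hmin _ c1 ⟨r, rfl⟩ hc1) hc)
  · refine ⟨orient _ colX Encodable.encode, orient_isOrientation colX _ hrank, ?_⟩
    rintro n c ⟨hodd, hc, hmin⟩
    have hne : NeZero n := ⟨by have := hc.1; omega⟩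
    exact alternating_of_mono colX _ hrank hodd c hc
      (case_large hk h hodd (hmin _ c1 ⟨k, rfl⟩ hc1) hc)

end Pool.Agent.Results.MP_118fda_co.Alternating
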